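import Pool.Agent.R737.Greedy.RedSide
import Pool.Agent.R737.Greedy.BlueSide

/-!
MP_d7d923_pr, Q1: for every β ≥ 0 the point-versus-interval game on the unit interval has a
value, and the value is the maximum of (n - 1 - β) / n ^ 2 over the positive integers n.
-/

open MeasureTheory Set Pool.Agent.R737.Greedy

namespace Pool.Agent.Results.MP_d7d923_pr.GameValue

/-- the maximum in the definition of M(β) exists, and is positive -/
lemma exists_max (β : ℝ) (hβ : 0 ≤ β) :
    ∃ n : ℕ, 1 ≤ n ∧ 0 < ((n : ℝ) - 1 - β) / (n : ℝ) ^ 2 ∧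
      ∀ k : ℕ, 1 ≤ k → ((k : ℝ) - 1 - β) / (k : ℝ) ^ 2 ≤ ((n : ℝ) - 1 - β) / (n : ℝ) ^ 2 := by
  set f : ℕ → ℝ := fun n => ((n : ℝ) - 1 - β) / (n : ℝ) ^ 2 with hf
  obtain ⟨n0, hn0⟩ := exists_nat_gt (1 + β)
  have hn0' : (0 : ℝ) < n0 := by linarith
  have hn01 : 1 ≤ n0 := by
    have : (0 : ℝ) < n0 := hn0'
    exact_mod_cast this
  have hx0 : 0 < f n0 := by
    rw [hf]
    exact div_pos (by linarith) (by positivity)
  obtain ⟨N, hN⟩ := exists_nat_gt (1 / f n0)
  obtain ⟨n, hn, hmax⟩ := Finset.exists_max_image (Finset.Icc 1 (max n0 N)) f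
    ⟨n0, Finset.mem_Icc.2 ⟨hn01, le_max_left _ _⟩⟩
  rw [Finset.mem_Icc] at hn
  have h0 : f n0 ≤ f n := hmax n0 (Finset.mem_Icc.2 ⟨hn01, le_max_left _ _⟩)
  refine ⟨n, hn.1, lt_of_lt_of_le hx0 h0, fun k hk => ?_⟩
  by_cases hk2 : k ≤ max n0 N
  · exact hmax k (Finset.mem_Icc.2 ⟨hk, hk2⟩)
  · push Not at hk2
    have hk3 : (N : ℝ) < k := by exact_mod_cast lt_of_le_of_lt (le_max_right n0 N) hk2
    have hk0 : (0 : ℝ) < k := by exact_mod_cast hk
    refine le_trans ?_ h0
    have h1 : 1 / f n0 < k := lt_trans hN hk3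
    have h2 : 1 < k * f n0 := by
      rw [div_lt_iff₀ hx0] at h1
      exact h1
    rw [div_le_iff₀ (by positivity)]
    nlinarith

/-- Full answer to Q1. -/
theorem result : ∀ β : ℝ, 0 ≤ β →
    ∃ M : ℝ, IsGreatest (candidates β) M ∧
      lowerValue β = (M : EReal) ∧ upperValue β = (M : EReal) := by
  intro β hβ
  obtain ⟨n, hn1, hpos, hmax⟩ := exists_max β hβ
  set M : ℝ := ((n : ℝ) - 1 - β) / (n : ℝ) ^ 2 with hM
  have hn0 : (0 : ℝ) < n := by exact_mod_cast hn1
  have hnb : 0 < (n : ℝ) - 1 - β := by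
    by_contra hcon
    push Not at hcon
    have : M ≤ 0 := div_nonpos_of_nonpos_of_nonneg hcon (by positivity)
    linarith
  have hM2 : M ≤ 2 := by
    rw [hM, div_le_iff₀ (by positivity)]
    have : (1 : ℝ) ≤ n := by exact_mod_cast hn1
    nlinarith
  refine ⟨M, ⟨⟨(n : ℤ), by exact_mod_cast hn1, by push_cast; rfl⟩, ?_⟩, ?_⟩
  · rintro x ⟨k, hk, rfl⟩
    obtain ⟨l, rfl⟩ : ∃ l : ℕ, k = (l : ℤ) := ⟨k.toNat, (Int.toNat_of_nonneg (by omega)).symm⟩
    have := hmax l (by exact_mod_cast hk)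
    push_cast
    exact this
  · have hup : upperValue β ≤ (M : EReal) := by
      obtain ⟨ν, hν⟩ := blue_guarantee β hβ M hpos hM2 hmax
      unfold upperValue
      refine iInf_le_of_le ν (iSup_le fun μ => ?_)
      exact_mod_cast hν μ
    have hlow : (M : EReal) ≤ lowerValue β := by
      rw [← EReal.ge_of_forall_gt_iff_ge]
      intro z hz
      have hz' : z < M := by exact_mod_cast hz
      obtain ⟨μ, hμ⟩ := red_guarantee β hβ n (by omega) hnb.le (M - z) (by linarith)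
      unfold lowerValue
      refine le_iSup_of_le μ (le_iInf fun ν => ?_)
      have := hμ ν
      have h2 : z ≤ expPay β μ ν := by
        rw [← hM] at this
        linarith
      exact_mod_cast h2
    have hle : lowerValue β ≤ upperValue β :=
      iSup_iInf_le_iInf_iSup (fun (μ : ProbabilityMeasure Red) (ν : ProbabilityMeasure Blue) =>
        ((expPay β μ ν : ℝ) : EReal))
    exact ⟨le_antisymm (hle.trans hup) hlow, le_antisymm hup (hlow.trans hle)⟩

end Pool.Agent.Results.MP_d7d923_pr.GameValue
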