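import Mathlib

/-!
# The value of the point-versus-interval greedy game

RED picks a closed interval `[a, a + A] ⊆ [0, 1]`, BLUE picks a point `p ∈ [0, 1]`; RED gets `A` if
`p` is not in the interval and `-β A` if it is. For every `β ≥ 0` the game has the value
`M β = max_{n ≥ 1} (n - 1 - β) / n ^ 2`.
-/

set_option autoImplicit false

namespace Pool.Agent.Results.MP_d7d923_pr.Value

open Set Filter Topology MeasureTheory

/-- RED's pure strategies: the pairs `(a, A)` with `0 ≤ a ≤ a + A ≤ 1`; the interval is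
`[a, a + A]`. -/
abbrev Red : Type := {s : ℝ × ℝ // 0 ≤ s.1 ∧ s.1 ≤ s.1 + s.2 ∧ s.1 + s.2 ≤ 1}

/-- BLUE's pure strategies: the points of `[0, 1]`. -/
abbrev Blue : Type := Icc (0 : ℝ) 1

open Classical in
/-- The payoff to RED: `A` if `p ∉ [a, a + A]` and `-β A` if `p ∈ [a, a + A]`. -/
noncomputable def payoff (β : ℝ) (s : Red) (p : Blue) : ℝ :=
  if (p : ℝ) ∈ Icc s.1.1 (s.1.1 + s.1.2) then -β * s.1.2 else s.1.2

/-- The expected payoff when RED uses the mixed strategy `μ` and BLUE the mixed strategy `ν`. -/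
noncomputable def expected (β : ℝ) (μ : ProbabilityMeasure Red) (ν : ProbabilityMeasure Blue) : ℝ :=
  ∫ z : Red × Blue, payoff β z.1 z.2 ∂((μ : Measure Red).prod (ν : Measure Blue))

/-- The lower value of the game. -/
noncomputable def lowerValue (β : ℝ) : ℝ :=
  ⨆ μ : ProbabilityMeasure Red, ⨅ ν : ProbabilityMeasure Blue, expected β μ ν

/-- The upper value of the game. -/
noncomputable def upperValue (β : ℝ) : ℝ :=
  ⨅ ν : ProbabilityMeasure Blue, ⨆ μ : ProbabilityMeasure Red, expected β μ ν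

/-! ### The payoff -/

lemma red_nonneg (s : Red) : 0 ≤ s.1.2 := by linarith [s.2.2.1]

lemma red_le_one (s : Red) : s.1.2 ≤ 1 := by linarith [s.2.1, s.2.2.2]

lemma payoff_le {β : ℝ} (hβ : 0 ≤ β) (s : Red) (p : Blue) : payoff β s p ≤ s.1.2 := by
  have h := red_nonneg s
  unfold payoff
  split_ifs
  · nlinarith
  · exact le_rfl

lemma payoff_ge {β : ℝ} (hβ : 0 ≤ β) (s : Red) (p : Blue) : -β ≤ payoff β s p := by
  have h := red_nonneg s
  have h1 := red_le_one s
  unfold payoff
  split_ifs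
  · nlinarith
  · linarith

lemma measurableSet_in : MeasurableSet {z : Red × Blue |
    (z.2 : ℝ) ∈ Icc z.1.1.1 (z.1.1.1 + z.1.1.2)} := by
  have h1 : Measurable fun z : Red × Blue => (z.2 : ℝ) := measurable_subtype_coe.comp measurable_snd
  have h2 : Measurable fun z : Red × Blue => z.1.1.1 :=
    (measurable_fst.comp measurable_subtype_coe).comp measurable_fst
  have h3 : Measurable fun z : Red × Blue => z.1.1.2 :=
    (measurable_snd.comp measurable_subtype_coe).comp measurable_fst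
  exact (measurableSet_le h2 h1).inter (measurableSet_le h1 (h2.add h3))

lemma payoff_meas (β : ℝ) : Measurable fun z : Red × Blue => payoff β z.1 z.2 := by
  have h3 : Measurable fun z : Red × Blue => z.1.1.2 :=
    (measurable_snd.comp measurable_subtype_coe).comp measurable_fst
  exact Measurable.ite measurableSet_in (h3.const_mul _) h3

lemma payoff_int {β : ℝ} (hβ : 0 ≤ β) (μ : ProbabilityMeasure Red) (ν : ProbabilityMeasure Blue) :
    Integrable (fun z : Red × Blue => payoff β z.1 z.2)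
      ((μ : Measure Red).prod (ν : Measure Blue)) := by
  refine Integrable.of_bound (payoff_meas β).aestronglyMeasurable (1 + β)
    (Eventually.of_forall fun z => ?_)
  rw [Real.norm_eq_abs, abs_le]
  have h1 := payoff_le hβ z.1 z.2
  have h2 := payoff_ge hβ z.1 z.2
  have h3 := red_le_one z.1
  constructor <;> linarith

lemma expected_eq {β : ℝ} (hβ : 0 ≤ β) (μ : ProbabilityMeasure Red)
    (ν : ProbabilityMeasure Blue) :
    expected β μ ν = ∫ s, ∫ p, payoff β s p ∂(ν : Measure Blue) ∂(μ : Measure Red) :=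
  integral_prod _ (payoff_int hβ μ ν)

lemma expected_eq' {β : ℝ} (hβ : 0 ≤ β) (μ : ProbabilityMeasure Red)
    (ν : ProbabilityMeasure Blue) :
    expected β μ ν = ∫ p, ∫ s, payoff β s p ∂(μ : Measure Red) ∂(ν : Measure Blue) :=
  integral_prod_symm _ (payoff_int hβ μ ν)

lemma expected_le {β : ℝ} (hβ : 0 ≤ β) (μ : ProbabilityMeasure Red)
    (ν : ProbabilityMeasure Blue) : expected β μ ν ≤ 1 := by
  have h := integral_mono (payoff_int hβ μ ν) (integrable_const (1 : ℝ)) fun z =>
    (payoff_le hβ z.1 z.2).trans (red_le_one z.1)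
  unfold expected
  simpa using h

lemma expected_ge {β : ℝ} (hβ : 0 ≤ β) (μ : ProbabilityMeasure Red)
    (ν : ProbabilityMeasure Blue) : -β ≤ expected β μ ν := by
  have h := integral_mono (integrable_const (-β)) (payoff_int hβ μ ν) fun z =>
    payoff_ge hβ z.1 z.2
  unfold expected
  simpa using h

/-! ### The number `M β` -/

lemma exists_max {β : ℝ} (hβ : 0 ≤ β) : ∃ n0 : ℕ, 1 ≤ n0 ∧ 0 < (n0 : ℝ) - 1 - β ∧
    ∀ n : ℕ, 1 ≤ n → ((n : ℝ) - 1 - β) / n ^ 2 ≤ ((n0 : ℝ) - 1 - β) / n0 ^ 2 := by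
  obtain ⟨n1, hn1⟩ := exists_nat_gt (1 + β)
  have hn1pos : (0 : ℝ) < n1 := by linarith
  have hn1' : 1 ≤ n1 := by
    by_contra h
    have : n1 = 0 := by omega
    rw [this] at hn1pos
    simp at hn1pos
  set f : ℕ → ℝ := fun n => ((n : ℝ) - 1 - β) / n ^ 2 with hf
  have hfn1 : 0 < f n1 := div_pos (by linarith) (by positivity)
  obtain ⟨N, hN⟩ := exists_nat_gt (1 / f n1)
  obtain ⟨n0, hn0, hmax⟩ := Finset.exists_max_image (Finset.Icc 1 (max n1 N)) f
    ⟨n1, Finset.mem_Icc.2 ⟨hn1', le_max_left _ _⟩⟩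
  rw [Finset.mem_Icc] at hn0
  have h1 : f n1 ≤ f n0 := hmax n1 (Finset.mem_Icc.2 ⟨hn1', le_max_left _ _⟩)
  have hn0' : (0 : ℝ) < n0 := by exact_mod_cast hn0.1
  refine ⟨n0, hn0.1, ?_, fun n hn => ?_⟩
  · by_contra h
    push Not at h
    have : f n0 ≤ 0 := div_nonpos_of_nonpos_of_nonneg h (by positivity)
    linarith
  · by_cases hle : n ≤ max n1 N
    · exact hmax n (Finset.mem_Icc.2 ⟨hn, hle⟩)
    · have hlt : N < n := lt_of_le_of_lt (le_max_right _ _) (not_le.1 hle)
      have hn' : (0 : ℝ) < n := by exact_mod_cast hn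
      have h2 : f n ≤ 1 / n := by
        show ((n : ℝ) - 1 - β) / n ^ 2 ≤ 1 / n
        rw [div_le_div_iff₀ (by positivity) hn']
        nlinarith
      have h3 : (1 : ℝ) / n ≤ f n1 := by
        have h4 : 1 / f n1 < n := hN.trans (by exact_mod_cast hlt)
        rw [div_lt_iff₀ hfn1] at h4
        rw [div_le_iff₀ hn']
        linarith
      exact (h2.trans h3).trans h1

/-! ### BLUE's strategy -/

section blue

variable {β M : ℝ} {n0 N : ℕ}

/-- clamping -/
noncomputable def cl (M y : ℝ) : ℝ := min 1 (max y M)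

/-- BLUE's distribution function -/
noncomputable def F (β M : ℝ) (N : ℕ) (y : ℝ) : ℝ :=
  (Finset.range (N + 1)).sup' ⟨0, by simp⟩ (fun n : ℕ => ((n : ℝ) - M * n ^ 2 / cl M y) / (1 + β))

lemma cl_pos (hM : 0 < M) (y : ℝ) : 0 < cl M y := lt_min one_pos (lt_max_of_lt_right hM)

lemma cl_mono (M : ℝ) : Monotone (cl M) := fun _ _ h => min_le_min_left _ (max_le_max_right _ h)

lemma cl_cont (M : ℝ) : Continuous (cl M) := by
  unfold cl
  fun_prop

lemma F_mono (hβ : 0 ≤ β) (hM : 0 < M) (N : ℕ) : Monotone (F β M N) := by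
  intro x y hxy
  unfold F
  refine Finset.sup'_mono_fun fun n _ => ?_
  have h1 := cl_mono M hxy
  have h2 := cl_pos hM x
  apply div_le_div_of_nonneg_right _ (by linarith)
  have : M * n ^ 2 / cl M y ≤ M * n ^ 2 / cl M x := by
    apply div_le_div_of_nonneg_left (by positivity) h2 h1
  linarith

lemma F_cont (hM : 0 < M) (N : ℕ) : Continuous (F β M N) := by
  unfold F
  refine Continuous.finset_sup'_apply _ fun n _ => ?_
  refine Continuous.div_const (continuous_const.sub (Continuous.div continuous_const (cl_cont M)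
    fun y => (cl_pos hM y).ne')) _

lemma term_le (y : ℝ) {n : ℕ} (hn : n ≤ N) :
    ((n : ℝ) - M * n ^ 2 / cl M y) / (1 + β) ≤ F β M N y := by
  unfold F
  exact Finset.le_sup' (fun n : ℕ => ((n : ℝ) - M * n ^ 2 / cl M y) / (1 + β))
    (Finset.mem_range.2 (Nat.lt_succ_of_le hn))

lemma F_nonneg (y : ℝ) : 0 ≤ F β M N y := by
  have := term_le (β := β) (M := M) (N := N) y (n := 0) (Nat.zero_le _)
  simpa using this

lemma F_low (hβ : 0 ≤ β) (hM : 0 < M) (hM1 : M ≤ 1) {y : ℝ} (hy : y ≤ M) : F β M N y = 0 := by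
  refine le_antisymm ?_ (F_nonneg y)
  unfold F
  refine Finset.sup'_le _ _ fun n _ => ?_
  have e : cl M y = M := by
    unfold cl
    rw [max_eq_right hy, min_eq_right hM1]
  rw [e]
  apply div_nonpos_of_nonpos_of_nonneg _ (by linarith)
  have e2 : M * (n : ℝ) ^ 2 / M = n ^ 2 := by field_simp
  rw [e2]
  have : (n : ℝ) ≤ (n : ℝ) ^ 2 := by
    rcases Nat.eq_zero_or_pos n with h | h
    · subst h; norm_num
    · have : (1 : ℝ) ≤ n := by exact_mod_cast h
      nlinarith
  linarith

lemma F_high (hβ : 0 ≤ β) (h1 : ∀ n : ℕ, (n : ℝ) - 1 - β ≤ M * n ^ 2)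
    (h2 : (n0 : ℝ) - 1 - β = M * n0 ^ 2) (hN : n0 ≤ N) {y : ℝ} (hy : 1 ≤ y) : F β M N y = 1 := by
  have e : cl M y = 1 := by
    unfold cl
    exact min_eq_left (le_max_of_le_left hy)
  have hb : (0 : ℝ) < 1 + β := by linarith
  refine le_antisymm ?_ ?_
  · unfold F
    refine Finset.sup'_le _ _ fun n _ => ?_
    rw [e, div_one, div_le_one hb]
    linarith [h1 n]
  · refine le_trans (le_of_eq ?_) (term_le (β := β) (M := M) y hN)
    rw [e, div_one, eq_comm, div_eq_one_iff_eq hb.ne']
    linarith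

/-- superadditivity -/
lemma F_super (hβ : 0 ≤ β) (hM : 0 < M) (hM1 : M ≤ 1) (hNM : 1 ≤ N * M) {a A : ℝ}
    (hA : M < A) (ha : 0 ≤ a) (haA : a + A ≤ 1) :
    (1 - M / A) / (1 + β) ≤ F β M N (a + A) - F β M N a := by
  have hb : (0 : ℝ) < 1 + β := by linarith
  have hApos : 0 < A := hM.trans hA
  have hN1 : 1 ≤ N := by
    by_contra h
    have : N = 0 := by omega
    rw [this] at hNM
    simp at hNM
    linarith
  have hcy : cl M (a + A) = a + A := by
    unfold cl
    rw [max_eq_left (by linarith), min_eq_right haA]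
  have hy1 := term_le (β := β) (M := M) (N := N) (a + A) (n := 1) hN1
  rw [hcy] at hy1
  have hbase : (1 - M / A) / (1 + β) ≤ F β M N (a + A) := by
    refine le_trans ?_ hy1
    apply div_le_div_of_nonneg_right _ hb.le
    have : M * ((1 : ℕ) : ℝ) ^ 2 / (a + A) ≤ M / A := by
      rw [Nat.cast_one, one_pow, mul_one]
      exact div_le_div_of_nonneg_left hM.le hApos (by linarith)
    push_cast at this ⊢
    linarith
  by_cases h0 : F β M N a ≤ 0
  · linarith
  push Not at h0
  have haM : M < a := by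
    by_contra h
    rw [F_low hβ hM hM1 (not_lt.1 h)] at h0
    exact lt_irrefl _ h0
  have hapos : 0 < a := hM.trans haM
  have hca : cl M a = a := by
    unfold cl
    rw [max_eq_left haM.le, min_eq_right (by linarith)]
  obtain ⟨n, hn, hFn⟩ := Finset.exists_mem_eq_sup' (⟨0, by simp⟩ : (Finset.range (N + 1)).Nonempty)
    (fun n : ℕ => ((n : ℝ) - M * n ^ 2 / cl M a) / (1 + β))
  have hFn' : F β M N a = ((n : ℝ) - M * n ^ 2 / a) / (1 + β) := by
    unfold F
    rw [hFn, hca]
  rw [Finset.mem_range] at hn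
  have hnN : n < N := by
    by_contra h
    have hnN : n = N := by omega
    rw [hFn', hnN] at h0
    have h1 : (N : ℝ) - M * N ^ 2 / a ≤ 0 := by
      have h2 : (N : ℝ) * a ≤ M * N ^ 2 := by
        have h3 : (0 : ℝ) ≤ N := Nat.cast_nonneg _
        have h4 : (N : ℝ) * a ≤ N * 1 := mul_le_mul_of_nonneg_left (by linarith) h3
        nlinarith
      rw [sub_nonpos, le_div_iff₀ hapos]
      exact h2
    have := div_nonpos_of_nonpos_of_nonneg h1 hb.le
    linarith
  have hy2 := term_le (β := β) (M := M) (N := N) (a + A) (n := n + 1) hnN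
  rw [hcy] at hy2
  rw [hFn']
  have key : (((n : ℝ) + 1) ^ 2) / (a + A) ≤ (n : ℝ) ^ 2 / a + 1 / A := by
    rw [div_add_div _ _ hapos.ne' hApos.ne', div_le_div_iff₀ (by linarith) (by positivity)]
    nlinarith [sq_nonneg ((n : ℝ) * A - a)]
  have key2 := mul_le_mul_of_nonneg_left key hM.le
  have e1 : (1 - M / A) / (1 + β) + ((n : ℝ) - M * n ^ 2 / a) / (1 + β) =
      ((n : ℝ) + 1 - M * (n ^ 2 / a + 1 / A)) / (1 + β) := by
    rw [← add_div]
    congr 1
    ring
  have e2 : (((n + 1 : ℕ) : ℝ) - M * ((n + 1 : ℕ) : ℝ) ^ 2 / (a + A)) / (1 + β) =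
      ((n : ℝ) + 1 - M * ((n + 1) ^ 2 / (a + A))) / (1 + β) := by
    push_cast
    congr 1
    ring
  rw [e2] at hy2
  have h5 : ((n : ℝ) + 1 - M * (n ^ 2 / a + 1 / A)) / (1 + β) ≤
      ((n : ℝ) + 1 - M * ((n + 1) ^ 2 / (a + A))) / (1 + β) :=
    div_le_div_of_nonneg_right (by linarith) hb.le
  linarith

/-- BLUE's optimal strategy -/
theorem exists_blue (hβ : 0 ≤ β) (hM : 0 < M) (hM1 : M ≤ 1)
    (h1 : ∀ n : ℕ, (n : ℝ) - 1 - β ≤ M * n ^ 2) (h2 : (n0 : ℝ) - 1 - β = M * n0 ^ 2) :
    ∃ ν : ProbabilityMeasure Blue, ∀ s : Red, ∫ p, payoff β s p ∂(ν : Measure Blue) ≤ M := by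
  have hb : (0 : ℝ) < 1 + β := by linarith
  obtain ⟨N1, hN1⟩ := exists_nat_ge (1 / M)
  set N := max n0 N1 with hN
  have hNM : 1 ≤ N * M := by
    have h3 : (N1 : ℝ) ≤ N := by exact_mod_cast le_max_right _ _
    rw [div_le_iff₀ hM] at hN1
    nlinarith
  let sf : StieltjesFunction ℝ :=
    { toFun := F β M N
      mono' := F_mono hβ hM N
      right_continuous' := fun x => (F_cont hM N).continuousWithinAt }
  have hbot : Tendsto sf atBot (𝓝 0) := by
    refine tendsto_const_nhds.congr' ?_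
    filter_upwards [eventually_le_atBot M] with y hy
    exact (F_low hβ hM hM1 hy).symm
  have htop : Tendsto sf atTop (𝓝 1) := by
    refine tendsto_const_nhds.congr' ?_
    filter_upwards [eventually_ge_atTop (1 : ℝ)] with y hy
    exact (F_high hβ h1 h2 (le_max_left _ _) hy).symm
  have hprob : IsProbabilityMeasure sf.measure := sf.isProbabilityMeasure hbot htop
  have hproj : Measurable (Set.projIcc (0 : ℝ) 1 zero_le_one) := continuous_projIcc.measurable
  let ν : ProbabilityMeasure Blue := ⟨sf.measure.map (Set.projIcc (0 : ℝ) 1 zero_le_one),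
    Measure.isProbabilityMeasure_map hproj.aemeasurable⟩
  refine ⟨ν, fun s => ?_⟩
  obtain ⟨⟨a, A⟩, ha, haA, hA1⟩ := s
  simp only at ha haA hA1
  have hA0 : 0 ≤ A := by linarith
  set C : Set Blue := {p | (p : ℝ) ∈ Icc a (a + A)} with hC
  have hCm : MeasurableSet C := measurable_subtype_coe measurableSet_Icc
  have hint : ∫ p, payoff β ⟨(a, A), ha, haA, hA1⟩ p ∂(ν : Measure Blue) =
      A - (1 + β) * A * (ν : Measure Blue).real C := by
    have e : (fun p => payoff β ⟨(a, A), ha, haA, hA1⟩ p) =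
        fun p => A - C.indicator (fun _ => (1 + β) * A) p := by
      funext p
      by_cases hp : p ∈ C
      · rw [indicator_of_mem hp]
        have hp' : (p : ℝ) ∈ Icc a (a + A) := hp
        unfold payoff
        rw [if_pos hp']
        ring
      · rw [indicator_of_notMem hp]
        have hp' : (p : ℝ) ∉ Icc a (a + A) := hp
        unfold payoff
        rw [if_neg hp']
        ring
    rw [e, integral_sub (integrable_const _) ((integrable_const _).indicator hCm),
      integral_indicator_const _ hCm]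
    simp
    ring
  rw [hint]
  by_cases hAM : A ≤ M
  · have : 0 ≤ (1 + β) * A * (ν : Measure Blue).real C := by positivity
    linarith
  push Not at hAM
  have hApos : 0 < A := hM.trans hAM
  have hmass : (1 - M / A) / (1 + β) ≤ (ν : Measure Blue).real C := by
    refine (F_super hβ hM hM1 hNM hAM ha hA1).trans ?_
    have h3 : sf.measure (Ioc a (a + A)) ≤ (ν : Measure Blue) C := by
      show _ ≤ sf.measure.map (Set.projIcc (0 : ℝ) 1 zero_le_one) C
      rw [Measure.map_apply hproj hCm]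
      refine measure_mono fun x hx => ?_
      show ((Set.projIcc (0 : ℝ) 1 zero_le_one x : Icc (0 : ℝ) 1) : ℝ) ∈ Icc a (a + A)
      rw [Set.projIcc_of_mem zero_le_one ⟨by linarith [hx.1], by linarith [hx.2]⟩]
      exact ⟨hx.1.le, hx.2⟩
    rw [sf.measure_Ioc] at h3
    have h4 := ENNReal.toReal_mono (measure_ne_top _ _) h3
    rw [ENNReal.toReal_ofReal (sub_nonneg.2 (sf.mono (by linarith)))] at h4
    exact h4
  have h5 := mul_le_mul_of_nonneg_left hmass (show 0 ≤ (1 + β) * A by positivity)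
  have e : (1 + β) * A * ((1 - M / A) / (1 + β)) = A - M := by
    field_simp
  linarith

end blue

/-! ### RED's strategies -/

theorem exists_red {β : ℝ} (hβ : 0 ≤ β) {n : ℕ} (hn : 1 ≤ n) (hpos : 0 < (n : ℝ) - 1 - β) {ε : ℝ}
    (hε : 0 < ε) (hε1 : ε ≤ 1 / n) : ∃ μ : ProbabilityMeasure Red, ∀ p : Blue,
      ((n : ℝ) - 1 - β) / n ^ 2 - ε ≤ ∫ s, payoff β s p ∂(μ : Measure Red) := by
  have hn' : (0 : ℝ) < n := by exact_mod_cast hn
  set A : ℝ := 1 / n - ε with hA
  have hA0 : 0 ≤ A := by linarith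
  have hk1 : ∀ k : Fin n, (k : ℝ) / n + 1 / n ≤ 1 := by
    intro k
    rw [← add_div, div_le_one hn']
    have : (k : ℕ) + 1 ≤ n := k.2
    exact_mod_cast this
  let s : Fin n → Red := fun k => ⟨((k : ℝ) / n, A), by positivity, by simpa using hA0, by
    have := hk1 k
    show (k : ℝ) / n + A ≤ 1
    linarith⟩
  have hpr : IsProbabilityMeasure (∑ k : Fin n, (n : ENNReal)⁻¹ • Measure.dirac (s k)) := by
    constructor
    simp only [Measure.coe_finsetSum, Finset.sum_apply, Measure.coe_smul, Pi.smul_apply,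
      measure_univ, smul_eq_mul, mul_one, Finset.sum_const, Finset.card_univ, Fintype.card_fin,
      nsmul_eq_mul]
    exact ENNReal.mul_inv_cancel (by exact_mod_cast (show n ≠ 0 by omega)) (ENNReal.natCast_ne_top n)
  refine ⟨⟨∑ k : Fin n, (n : ENNReal)⁻¹ • Measure.dirac (s k), hpr⟩, fun p => ?_⟩
  show _ ≤ ∫ t, payoff β t p ∂(∑ k : Fin n, (n : ENNReal)⁻¹ • Measure.dirac (s k))
  have hmeas : Measurable fun t : Red => payoff β t p :=
    (payoff_meas β).comp (measurable_id.prodMk measurable_const)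
  have hint : ∀ k ∈ (Finset.univ : Finset (Fin n)), Integrable (fun t : Red => payoff β t p)
      ((n : ENNReal)⁻¹ • Measure.dirac (s k)) := by
    intro k _
    refine Integrable.smul_measure ?_ (by
      rw [ne_eq, ENNReal.inv_eq_top]
      exact_mod_cast (show n ≠ 0 by omega))
    refine Integrable.of_bound hmeas.aestronglyMeasurable (1 + β)
      (Eventually.of_forall fun z => ?_)
    rw [Real.norm_eq_abs, abs_le]
    have h1 := payoff_le hβ z p
    have h2 := payoff_ge hβ z p
    have h3 := red_le_one z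
    constructor <;> linarith
  rw [integral_finsetSum_measure hint]
  simp only [integral_smul_measure, integral_dirac' _ _ hmeas.stronglyMeasurable, smul_eq_mul,
    ENNReal.toReal_inv, ENNReal.toReal_natCast]
  rw [← Finset.mul_sum]
  -- at most one of the intervals contains `p`
  set T : Finset (Fin n) := Finset.univ.filter fun k : Fin n =>
    (p : ℝ) ∈ Icc ((k : ℝ) / n) ((k : ℝ) / n + A) with hT
  have hTc : T.card ≤ 1 := by
    rw [Finset.card_le_one]
    intro k hk l hl
    have hk2 := (Finset.mem_filter.1 hk).2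
    have hl2 := (Finset.mem_filter.1 hl).2
    have key : ∀ k l : Fin n, (p : ℝ) ∈ Icc ((k : ℝ) / n) ((k : ℝ) / n + A) →
        (p : ℝ) ∈ Icc ((l : ℝ) / n) ((l : ℝ) / n + A) → (l : ℕ) ≤ k := by
      intro k l hk hl
      have h1 : (l : ℝ) / n < (k : ℝ) / n + 1 / n := by linarith [hk.2, hl.1]
      rw [← add_div, div_lt_div_iff_of_pos_right hn'] at h1
      have : (l : ℕ) < k + 1 := by exact_mod_cast h1
      omega
    exact Fin.ext (le_antisymm (key l k hl2 hk2) (key k l hk2 hl2))
  have hsum : ∑ k : Fin n, payoff β (s k) p = n * A - (1 + β) * A * T.card := by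
    have h1 : ∀ k : Fin n, payoff β (s k) p = A - if k ∈ T then (1 + β) * A else 0 := by
      intro k
      by_cases hk : (p : ℝ) ∈ Icc ((k : ℝ) / n) ((k : ℝ) / n + A)
      · have hkT : k ∈ T := Finset.mem_filter.2 ⟨Finset.mem_univ _, hk⟩
        rw [if_pos hkT]
        unfold payoff
        rw [if_pos hk]
        show -β * A = _
        ring
      · have hkT : k ∉ T := fun h => hk (Finset.mem_filter.1 h).2
        rw [if_neg hkT]
        unfold payoff
        rw [if_neg hk]
        show A = _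
        ring
    simp only [h1, Finset.sum_sub_distrib, Finset.sum_const, Finset.card_univ, Fintype.card_fin,
      nsmul_eq_mul, Finset.sum_ite_mem, Finset.univ_inter]
    ring
  rw [hsum]
  have hTc' : (T.card : ℝ) ≤ 1 := by exact_mod_cast hTc
  have h2 : n * A - (1 + β) * A ≤ n * A - (1 + β) * A * T.card := by
    have : 0 ≤ (1 + β) * A := by positivity
    nlinarith
  have h3 := mul_le_mul_of_nonneg_left h2 (show (0 : ℝ) ≤ (n : ℝ)⁻¹ by positivity)
  refine le_trans ?_ h3
  have e : (n : ℝ)⁻¹ * (n * A - (1 + β) * A) =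
      ((n : ℝ) - 1 - β) / n ^ 2 - ε * (((n : ℝ) - 1 - β) / n) := by
    rw [hA]
    field_simp
    ring
  rw [e]
  have h4 : ((n : ℝ) - 1 - β) / n ≤ 1 := by
    rw [div_le_one hn']
    linarith
  nlinarith

/-- **Theorem.** For every `β ≥ 0` the maximum `M` of the numbers `(n - 1 - β) / n ^ 2`, `n ≥ 1`,
exists, and both the lower value and the upper value of the game are equal to `M`. -/
theorem result (β : ℝ) (hβ : 0 ≤ β) :
    ∃ M : ℝ, IsGreatest {x : ℝ | ∃ n : ℕ, 1 ≤ n ∧ x = ((n : ℝ) - 1 - β) / n ^ 2} M ∧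
      lowerValue β = M ∧ upperValue β = M := by
  obtain ⟨n0, hn0, hpos, hmax⟩ := exists_max hβ
  have hn0' : (0 : ℝ) < n0 := by exact_mod_cast hn0
  set M := ((n0 : ℝ) - 1 - β) / n0 ^ 2 with hM
  have hMpos : 0 < M := div_pos hpos (by positivity)
  have hM1 : M ≤ 1 := by
    rw [hM, div_le_one (by positivity)]
    have : (1 : ℝ) ≤ n0 := by exact_mod_cast hn0
    nlinarith
  have h1 : ∀ n : ℕ, (n : ℝ) - 1 - β ≤ M * n ^ 2 := by
    intro n
    rcases Nat.eq_zero_or_pos n with h | h
    · subst h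
      norm_num
      linarith
    · have h2 := hmax n h
      have h3 : (0 : ℝ) < n := by exact_mod_cast h
      rwa [div_le_iff₀ (by positivity)] at h2
  have h2 : (n0 : ℝ) - 1 - β = M * n0 ^ 2 := by
    rw [hM]
    field_simp
  obtain ⟨ν, hν⟩ := exists_blue hβ hMpos hM1 h1 h2
  have : Nonempty Red := ⟨⟨(0, 0), by norm_num⟩⟩
  have : Nonempty (ProbabilityMeasure Red) :=
    ⟨⟨Measure.dirac (Classical.arbitrary Red), inferInstance⟩⟩
  have : Nonempty (ProbabilityMeasure Blue) := ⟨ν⟩
  have hup : ∀ μ : ProbabilityMeasure Red, expected β μ ν ≤ M := by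
    intro μ
    rw [expected_eq hβ]
    have h3 : ∫ s, ∫ p, payoff β s p ∂(ν : Measure Blue) ∂(μ : Measure Red) ≤
        ∫ _s, M ∂(μ : Measure Red) :=
      integral_mono (payoff_int hβ μ ν).integral_prod_left (integrable_const _) hν
    simpa using h3
  have hlow : ∀ ε : ℝ, 0 < ε → ε ≤ 1 / n0 → ∃ μ : ProbabilityMeasure Red,
      ∀ ν : ProbabilityMeasure Blue, M - ε ≤ expected β μ ν := by
    intro ε hε hε1
    obtain ⟨μ, hμ⟩ := exists_red hβ hn0 hpos hε hε1
    refine ⟨μ, fun ν => ?_⟩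
    rw [expected_eq' hβ]
    have h3 : ∫ _p, (M - ε) ∂(ν : Measure Blue) ≤
        ∫ p, ∫ s, payoff β s p ∂(μ : Measure Red) ∂(ν : Measure Blue) :=
      integral_mono (integrable_const _) (payoff_int hβ μ ν).integral_prod_right hμ
    simpa using h3
  have hbb : ∀ μ : ProbabilityMeasure Red, BddBelow (range fun ν => expected β μ ν) := fun μ =>
    ⟨-β, by rintro _ ⟨ν, rfl⟩; exact expected_ge hβ μ ν⟩
  have hba : ∀ ν : ProbabilityMeasure Blue, BddAbove (range fun μ => expected β μ ν) := fun ν =>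
    ⟨1, by rintro _ ⟨μ, rfl⟩; exact expected_le hβ μ ν⟩
  refine ⟨M, ⟨⟨n0, hn0, rfl⟩, ?_⟩, le_antisymm ?_ ?_, le_antisymm ?_ ?_⟩
  · rintro x ⟨n, hn, rfl⟩
    exact hmax n hn
  · exact ciSup_le fun μ => (ciInf_le (hbb μ) ν).trans (hup μ)
  · refine le_of_forall_pos_sub_le fun ε hε => ?_
    obtain ⟨μ, hμ⟩ := hlow (min ε (1 / n0)) (lt_min hε (by positivity)) (min_le_right _ _)
    have hbd : BddAbove (range fun μ : ProbabilityMeasure Red =>
        ⨅ ν : ProbabilityMeasure Blue, expected β μ ν) :=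
      ⟨M, by rintro _ ⟨μ, rfl⟩; exact (ciInf_le (hbb μ) ν).trans (hup μ)⟩
    have h3 : M - min ε (1 / n0) ≤ ⨅ ν : ProbabilityMeasure Blue, expected β μ ν := le_ciInf hμ
    have h4 := h3.trans (le_ciSup hbd μ)
    have h5 : min ε (1 / n0) ≤ ε := min_le_left _ _
    show M - ε ≤ lowerValue β
    unfold lowerValue
    linarith
  · have hbd : BddBelow (range fun ν : ProbabilityMeasure Blue =>
        ⨆ μ : ProbabilityMeasure Red, expected β μ ν) := by
      refine ⟨-β, ?_⟩
      rintro _ ⟨ν, rfl⟩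
      exact (expected_ge hβ (Classical.arbitrary _) ν).trans (le_ciSup (hba ν) _)
    exact (ciInf_le hbd ν).trans (ciSup_le hup)
  · refine le_ciInf fun ν' => le_of_forall_pos_sub_le fun ε hε => ?_
    obtain ⟨μ, hμ⟩ := hlow (min ε (1 / n0)) (lt_min hε (by positivity)) (min_le_right _ _)
    have h4 := (hμ ν').trans (le_ciSup (hba ν') μ)
    have h5 : min ε (1 / n0) ≤ ε := min_le_left _ _
    linarith

end Pool.Agent.Results.MP_d7d923_pr.Value
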